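import Pool.Agent.P.MP_e1e3b8_co.G.Psi

/-! Points at an intermediate level without a direction of descent give hexagons. -/

namespace Pool.Agent.P.MP_e1e3b8_co.G

open Set Filter Topology Metric

variable {m w M W : ℝ → ℝ} {a b : ℝ}

lemma sv_nonneg (y : Fin 5 → ℝ) : 0 ≤ sv y := by unfold sv; positivity

lemma tv_nonneg (y : Fin 5 → ℝ) : 0 ≤ tv y := by unfold tv; positivity

lemma sv_add_tv (y : Fin 5 → ℝ) : sv y + tv y = |y 1| + 2 * |y 2| := by
  have := max_zero_add_max_neg_zero_eq_abs_self (y 1)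
  unfold sv tv
  linarith

theorem Dat.crit (D : Dat m w M W a b) (hH : ¬Hex m w a b) (y : Fin 5 → ℝ)
    (l0 : 0 < Psi M W (W b) y) (l1 : Psi M W (W b) y < W b) : LocDesc (Psi M W (W b)) y := by
  by_contra hn
  have cW := D.cW
  obtain ⟨μ0, e0, e1, e2⟩ := eta_loc 3 (μ := fun z => W b - W (z 0 + sv z + tv z)) (by fun_prop)
    (psi_eta _) hn
  obtain ⟨ν0, z0, z1, z2⟩ := eta_loc 4 (μ := fun z => W (z 0 - sv z - tv z)) (by fun_prop)
    (psi_zeta _) hn
  have hb : y 0 + sv y + tv y ≤ b := D.mono.le_iff_le.1 (by linarith)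
  have ha : a ≤ y 0 - sv y - tv y := D.mono.le_iff_le.1 (by rw [D.Wa]; exact ν0)
  have hα : y 3 = 0 ∨ y 3 = 1 ∨ y 0 + sv y + tv y = b :=
    e2.imp_right fun h => h.imp_right fun h => D.mono.injective (by linarith)
  have hβ : y 4 = 0 ∨ y 4 = 1 ∨ y 0 - sv y - tv y = a :=
    z2.imp_right fun h => h.imp_right fun h => D.mono.injective (by rw [D.Wa]; exact h)
  have hα' : y 3 = 0 ∨ y 3 = 1 ∨ w (y 0 + sv y + tv y) = 0 :=
    hα.imp_right fun h => h.imp_right fun h => by rw [h, D.wb]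
  have hβ' : y 4 = 0 ∨ y 4 = 1 ∨ w (y 0 - sv y - tv y) = 0 :=
    hβ.imp_right fun h => h.imp_right fun h => by rw [h, D.wa]
  have Z := D.zero (W b) hn
  rw [cl_of_mem e0 e1, cl_of_mem z0 z1] at Z
  have F := fun ε hε hst => hex_of_crit (m := m) (ε := ε) hε (sv_nonneg y) (tv_nonneg y) hst ha hb
    hα' hβ'
  by_cases h2 : y 2 = 0
  swap
  · obtain ⟨ε, hε, u⟩ : ∃ ε : ℝ, (ε = 1 ∨ ε = -1) ∧
        ∀ δ : ℝ, δ = 1 ∨ δ = -1 → 0 ≤ δ * y 2 → δ = ε := by
      rcases lt_or_gt_of_ne h2 with h | h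
      · exact ⟨-1, .inr rfl, fun δ hδ h' => hδ.resolve_left fun e => by rw [e] at h'; linarith⟩
      · exact ⟨1, .inl rfl, fun δ hδ h' => hδ.resolve_right fun e => by rw [e] at h'; linarith⟩
    have hε0 : ε ≠ 0 := by rcases hε with rfl | rfl <;> norm_num
    have h12 := (mul_eq_zero.1 (Z 0 0 1 (by simp)
      (ε * (Dr m w ε (y 3) (y 4) (y 0) (sv y) (tv y) 0 1 0 +
        Dr m w ε (y 3) (y 4) (y 0) (sv y) (tv y) 0 0 1)) fun δ τ hδ _ a2 _ => by
      rw [u δ hδ a2]
      unfold Dr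
      ring)).resolve_left hε0
    have h1 := Z 0 1 0 (by simp) (Dr m w ε (y 3) (y 4) (y 0) (sv y) (tv y) 0 1 0)
      fun δ τ hδ hτ a2 _ => by
        rw [u δ hδ a2]
        unfold Dr at h12 ⊢
        rcases hτ with rfl | rfl
        · ring
        · linear_combination -h12
    refine hH (F ε hε ?_ (Z 1 0 0 (by simp) _ fun δ τ hδ _ a2 _ => ?_) h1 (by linarith))
    · rw [sv_add_tv]
      positivity
    · rw [u δ hδ a2]
      unfold Dr
      ring
  rcases lt_trichotomy (y 1) 0 with h1 | h1 | h1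
  · have hs : sv y = 0 := by simp [sv, h2, h1.le]
    have ht : 0 < tv y := by simpa [tv, h2]
    have u : ∀ τ : ℝ, τ = 1 ∨ τ = -1 → 0 ≤ τ * y 1 → τ = -1 :=
      fun τ hτ h' => hτ.resolve_left fun e => by rw [e] at h'; linarith
    rw [hs] at Z F ha hb hα' hβ'
    have k0 := Z 1 0 0 (by simp) (Dr m w 1 (y 3) (y 4) (y 0) 0 (tv y) 1 0 0) fun δ τ _ _ _ _ => by
      simp only [Dr, add_zero, sub_zero]
      ring
    have k2 := Z 0 (-1) 0 (by simp) (Dr m w 1 (y 3) (y 4) (y 0) 0 (tv y) 0 0 1)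
      fun δ τ _ hτ _ a1 => by
        simp only [u τ hτ a1, Dr, add_zero, sub_zero]
        ring
    refine hH (F 1 (.inl rfl) (by linarith) k0 (Z 0 0 1 (by simp) _ fun δ τ hδ _ _ _ => ?_) k2)
    have p := D.pos (y 0) (by linarith) (by linarith)
    simp only [Dr, add_zero, sub_zero] at k0 k2 hα' hβ' ⊢
    have q0 : y 3 * w (y 0 + tv y) = w (y 0) / 2 := by linarith
    have q1 : (1 - y 4) * w (y 0 - tv y) = w (y 0) / 2 := by linarith
    rcases hα' with h | h | h <;> rcases hβ' with h' | h' | h' <;> rw [h] at q0 <;>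
      rw [h'] at q1 <;> try (exfalso; linarith)
    rw [h, h']
    rcases hδ with rfl | rfl <;> linarith
  · have hs : sv y = 0 := by simp [sv, h2, h1]
    have ht : tv y = 0 := by simp [tv, h2, h1]
    rw [psi_piece _ (.inl rfl) (by simp [h2])] at l0 l1
    rw [hs, ht] at Z hα hβ l0 l1
    have k0 := Z 1 0 0 (by simp) ((y 4 - y 3) * w (y 0)) fun δ τ _ _ _ _ => by
      simp only [Dr, add_zero, sub_zero]
      ring
    simp only [T, Nf, Kf, th, cl_of_mem e0 e1, cl_of_mem z0 z1, add_zero, sub_zero]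
      at l0 l1 hα hβ
    have ab := D.ab
    by_cases ca : y 0 = a
    · rw [ca, D.Wa] at l0 l1
      rcases hα with h | h | h
      · rw [h] at l0; linarith
      · rw [h] at l1; linarith
      · linarith
    by_cases cb : y 0 = b
    · rw [cb] at l0 l1
      rcases hβ with h | h | h
      · rw [h] at l0; linarith
      · rw [h] at l1; linarith
      · exact ca h
    have e := sub_eq_zero.1 ((mul_eq_zero.1 k0).resolve_right (D.pos _ ca cb).ne')
    rw [e] at l0 l1
    rcases hα with h | h | h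
    · rw [h] at l0; linarith
    · rw [h] at l1; linarith
    · exact cb h
  · have ht : tv y = 0 := by simp [tv, h2, h1.le]
    have hs : 0 < sv y := by simpa [sv, h2]
    have u : ∀ τ : ℝ, τ = 1 ∨ τ = -1 → 0 ≤ τ * y 1 → τ = 1 :=
      fun τ hτ h' => hτ.resolve_right fun e => by rw [e] at h'; linarith
    rw [ht] at Z F ha hb hα' hβ'
    have k0 := Z 1 0 0 (by simp) (Dr m w 1 (y 3) (y 4) (y 0) (sv y) 0 1 0 0) fun δ τ _ _ _ _ => by
      simp only [Dr, add_zero, sub_zero]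
      ring
    have k1 := Z 0 1 0 (by simp) (Dr m w 1 (y 3) (y 4) (y 0) (sv y) 0 0 1 0)
      fun δ τ _ hτ _ a1 => by
        simp only [u τ hτ a1, Dr, add_zero, sub_zero]
        ring
    refine hH (F 1 (.inl rfl) (by linarith) k0 k1 (Z 0 0 1 (by simp) _ fun δ τ hδ _ _ _ => ?_))
    have p := D.pos (y 0) (by linarith) (by linarith)
    simp only [Dr, add_zero, sub_zero] at k0 k1 hα' hβ' ⊢
    have q0 : (1 - y 3) * w (y 0 + sv y) = w (y 0) / 2 := by linarith
    have q1 : y 4 * w (y 0 - sv y) = w (y 0) / 2 := by linarith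
    rcases hα' with h | h | h <;> rcases hβ' with h' | h' | h' <;> rw [h] at q0 <;>
      rw [h'] at q1 <;> try (exfalso; linarith)
    rw [h, h']
    rcases hδ with rfl | rfl <;> linarith

end Pool.Agent.P.MP_e1e3b8_co.G
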