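import Mathlib

/-! A deformation lemma for continuous functions with local directions of descent. -/

namespace Pool.Agent.P.MP_e1e3b8_co.G

open Set Filter Topology Metric

variable {E : Type} [NormedAddCommGroup E] [NormedSpace ℝ E]

/-- Uniform descent along one direction near the set `U`. -/
def Desc (Ψ : E → ℝ) (U : Set E) : Prop :=
  ∃ V : E, ‖V‖ ≤ 1 ∧ ∃ κ : ℝ, 0 < κ ∧ ∀ y ∈ U, ∀ z, dist z y ≤ κ → ∀ h, 0 ≤ h → h ≤ κ →
    Ψ (z + h • V) ≤ Ψ z - κ * h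

/-- Uniform descent near a point. -/
def LocDesc (Ψ : E → ℝ) (y : E) : Prop := ∃ U, IsOpen U ∧ y ∈ U ∧ Desc Ψ U

lemma locDesc_of_eventually {Ψ : E → ℝ} {y V : E} (hV : ‖V‖ ≤ 1) {κ : ℝ} (hκ : 0 < κ)
    (h : ∀ᶠ p : E × ℝ in 𝓝 (y, 0), 0 ≤ p.2 → Ψ (p.1 + p.2 • V) ≤ Ψ p.1 - κ * p.2) :
    LocDesc Ψ y := by
  obtain ⟨ε, hε, H⟩ := Metric.eventually_nhds_iff.1 h
  refine ⟨ball y (ε / 2), isOpen_ball, mem_ball_self (by positivity), V, hV, min κ (ε / 4),
    by positivity, ?_⟩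
  intro y' hy' z hz t ht0 ht
  have m1 := min_le_right κ (ε / 4)
  have h1 : dist (z, t) (y, (0 : ℝ)) < ε := by
    rw [Prod.dist_eq, max_lt_iff]
    refine ⟨?_, ?_⟩
    · have := dist_triangle z y' y
      have := mem_ball.1 hy'
      simp only
      linarith
    · simp only [dist_zero_right, Real.norm_of_nonneg ht0]
      linarith
  have h2 := H h1 ht0
  have := mul_le_mul_of_nonneg_right (min_le_left κ (ε / 4)) ht0
  simp only at h2
  linarith

lemma locDesc_of_deriv {Ψ : E → ℝ} (hΨ : Continuous Ψ) {y V : E} (hV : ‖V‖ ≤ 1) {κ : ℝ}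
    (hκ : 0 < κ)
    (h : ∀ᶠ z in 𝓝 y, ∃ d ≤ -κ, HasDerivWithinAt (fun h : ℝ => Ψ (z + h • V)) d (Ici 0) 0) :
    LocDesc Ψ y := by
  obtain ⟨ε, hε, H⟩ := Metric.eventually_nhds_iff.1 h
  refine locDesc_of_eventually hV hκ ?_
  filter_upwards [ball_mem_nhds (y, (0 : ℝ)) (half_pos hε)] with p hp h0
  rw [mem_ball, Prod.dist_eq, max_lt_iff] at hp
  obtain ⟨p1, p2⟩ := hp
  simp only [dist_zero_right, Real.norm_of_nonneg h0] at p1 p2
  have key : ∀ x ∈ Ico 0 p.2, ∃ d ≤ -κ,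
      HasDerivWithinAt (fun h : ℝ => Ψ (p.1 + h • V)) d (Ici x) x := by
    intro x hx
    have h1 : dist (p.1 + x • V) y < ε := by
      have h2 : dist (p.1 + x • V) p.1 ≤ x := by
        rw [dist_self_add_left, norm_smul, Real.norm_of_nonneg hx.1]
        exact mul_le_of_le_one_right hx.1 hV
      have := dist_triangle (p.1 + x • V) p.1 y
      have := hx.2
      linarith
    obtain ⟨d, hd, hd'⟩ := H h1
    refine ⟨d, hd, ?_⟩
    have h3 : HasDerivWithinAt (fun h : ℝ => h - x) 1 (Ici x) x :=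
      ((hasDerivAt_id x).sub_const x).hasDerivWithinAt
    have h4 := HasDerivWithinAt.comp_of_eq x hd' h3
      (fun u hu => mem_Ici.2 (sub_nonneg.2 (mem_Ici.1 hu))) (sub_self x).symm
    rw [mul_one] at h4
    have e : (fun h : ℝ => Ψ (p.1 + h • V)) =
        (fun h : ℝ => Ψ (p.1 + x • V + h • V)) ∘ fun h => h - x := by
      funext u
      simp [sub_smul, add_assoc]
    rwa [e]
  choose! d hd hd' using key
  have h5 := image_le_of_deriv_right_le_deriv_boundary (f := fun h : ℝ => Ψ (p.1 + h • V))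
    (f' := d) (a := 0) (b := p.2) (by fun_prop) hd' (B := fun h => Ψ p.1 - κ * h)
    (B' := fun _ => -κ) (by simp) (by fun_prop)
    (fun x _ => by
      simpa using (((hasDerivAt_id x).const_mul κ).const_sub (Ψ p.1)).hasDerivWithinAt) hd
  exact h5 (right_mem_Icc.2 h0)

lemma step {Ψ : E → ℝ} (hΨ : Continuous Ψ) {ι : Type} [Fintype ι] (U : ι → Set E)
    (hU : ∀ i, IsOpen (U i)) (hD : ∀ i, Desc Ψ (U i)) {lo mid hi : ℝ} (hlo : lo < mid)
    (hc : ∀ y, mid ≤ Ψ y → Ψ y ≤ hi → ∃ i, y ∈ U i) :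
    ∃ T : E → E, Continuous T ∧ ∃ d, 0 < d ∧ (∀ y, Ψ (T y) ≤ Ψ y) ∧ (∀ y, Ψ y ≤ lo → T y = y) ∧
      ∀ y, mid ≤ Ψ y → Ψ y ≤ hi → Ψ (T y) ≤ Ψ y - d := by
  classical
  choose V hV κ hκ hd using hD
  obtain ⟨k, hk, hk0⟩ : ∃ k : ℝ, (∀ i, k ≤ κ i) ∧ 0 < k := by
    have : ∀ᶠ x in 𝓝[>] (0 : ℝ), ∀ i, x ≤ κ i := eventually_all.2 fun i =>
      mem_nhdsWithin_of_mem_nhds (Iic_mem_nhds (hκ i))
    exact (this.and self_mem_nhdsWithin).exists
  obtain ⟨ρ, hρ⟩ := PartitionOfUnity.exists_isSubordinate (s := Ψ ⁻¹' Icc mid hi)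
    (isClosed_Icc.preimage hΨ) (fun i => U i ∩ {y | lo < Ψ y})
    (fun i => (hU i).inter (isOpen_lt continuous_const hΨ)) fun y hy => by
      obtain ⟨i, hi⟩ := hc y hy.1 hy.2
      exact mem_iUnion.2 ⟨i, hi, hlo.trans_le hy.1⟩
  have hs : ∀ i y, ρ i y ≠ 0 → y ∈ U i ∧ lo < Ψ y := fun i y h => hρ i (subset_tsupport _ h)
  have h1 : ∀ y (A : Finset ι), ∑ i ∈ A, ρ i y ≤ 1 := fun y A => by
    have := ρ.sum_le_one y
    rw [finsum_eq_sum_of_fintype] at this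
    exact (Finset.sum_le_sum_of_subset_of_nonneg (Finset.subset_univ A)
      fun i _ _ => ρ.nonneg i y).trans this
  have key : ∀ y (A : Finset ι),
      Ψ (y + ∑ i ∈ A, (k * ρ i y) • V i) ≤ Ψ y - k * (k * ∑ i ∈ A, ρ i y) := by
    intro y A
    induction A using Finset.induction_on with
    | empty => simp
    | insert j A hj ih =>
      rw [Finset.sum_insert hj, Finset.sum_insert hj]
      by_cases h0 : ρ j y = 0
      · simpa [h0] using ih
      have r0 := ρ.nonneg j y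
      have r1 : ρ j y ≤ 1 := by simpa using h1 y {j}
      have h2 : dist (y + ∑ i ∈ A, (k * ρ i y) • V i) y ≤ κ j := by
        rw [dist_self_add_left]
        refine (norm_sum_le _ _).trans (le_trans ?_ (hk j))
        refine (Finset.sum_le_sum fun i _ => ?_).trans
          ((Finset.mul_sum A (fun i => ρ i y) k).ge.trans (mul_le_of_le_one_right hk0.le (h1 y A)))
        have := mul_nonneg hk0.le (ρ.nonneg i y)
        rw [norm_smul, Real.norm_of_nonneg this]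
        exact mul_le_of_le_one_right this (hV i)
      have h3 := hd j y (hs j y h0).1 _ h2 (k * ρ j y) (mul_nonneg hk0.le r0)
        ((mul_le_of_le_one_right hk0.le r1).trans (hk j))
      have h4 := mul_le_mul_of_nonneg_right (hk j) (mul_nonneg hk0.le r0)
      rw [add_comm ((k * ρ j y) • V j), ← add_assoc]
      nlinarith
  refine ⟨fun y => y + ∑ i, (k * ρ i y) • V i, by fun_prop, k * k, mul_pos hk0 hk0, fun y => ?_,
    fun y hy => ?_, fun y h2 h3 => ?_⟩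
  · have := mul_nonneg hk0.le (mul_nonneg hk0.le
      (Finset.sum_nonneg fun i (_ : i ∈ Finset.univ) => ρ.nonneg i y))
    linarith [key y Finset.univ]
  · have : ∀ i, ρ i y = 0 := fun i => by
      by_contra h
      exact absurd (hs i y h).2 (not_lt.2 hy)
    simp [this]
  · have h4 := ρ.sum_eq_one (x := y) ⟨h2, h3⟩
    rw [finsum_eq_sum_of_fintype] at h4
    have := key y Finset.univ
    rwa [h4, mul_one] at this

/-- The deformation lemma. -/
theorem deform [ProperSpace E] {Ψ : E → ℝ} (hΨ : Continuous Ψ) {U₁ U₂ : Set E}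
    (o₁ : IsOpen U₁) (o₂ : IsOpen U₂) (d₁ : Desc Ψ U₁) (d₂ : Desc Ψ U₂) {R : ℝ}
    (hR : ∀ y, y ∉ U₁ → y ∉ U₂ → ‖y‖ ≤ R) {lo mid hi : ℝ} (hlo : lo < mid)
    (hc : ∀ y, y ∉ U₁ → y ∉ U₂ → mid ≤ Ψ y → Ψ y ≤ hi → LocDesc Ψ y) :
    ∃ T : E → E, Continuous T ∧ (∀ y, Ψ y ≤ lo → T y = y) ∧ ∀ y, Ψ y ≤ hi → Ψ (T y) < mid := by
  classical
  have hK : IsCompact (U₁ᶜ ∩ U₂ᶜ ∩ Ψ ⁻¹' Icc mid hi) :=
    (isCompact_closedBall (0 : E) R).of_isClosed_subset
      ((o₁.isClosed_compl.inter o₂.isClosed_compl).inter (isClosed_Icc.preimage hΨ))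
      fun y hy => mem_closedBall_zero_iff.2 (hR y hy.1.1 hy.1.2)
  obtain ⟨t, ht⟩ := hK.elim_finite_subcover (fun U : {U : Set E // IsOpen U ∧ Desc Ψ U} => U.1)
    (fun U => U.2.1) fun y hy => by
      obtain ⟨U, h1, h2, h3⟩ := hc y hy.1.1 hy.1.2 hy.2.1 hy.2.2
      exact mem_iUnion.2 ⟨⟨U, h1, h3⟩, h2⟩
  obtain ⟨T, hT, d, hd, t1, t2, t3⟩ := step hΨ
    (fun i : (insert ⟨U₁, o₁, d₁⟩ (insert ⟨U₂, o₂, d₂⟩ t) : Finset _) => i.1.1)
    (fun i => i.1.2.1) (fun i => i.1.2.2) hlo (hi := hi) fun y h1 h2 => by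
      by_cases a₁ : y ∈ U₁
      · exact ⟨⟨⟨U₁, o₁, d₁⟩, by simp⟩, a₁⟩
      by_cases a₂ : y ∈ U₂
      · exact ⟨⟨⟨U₂, o₂, d₂⟩, by simp⟩, a₂⟩
      obtain ⟨U, hU, hy⟩ := mem_iUnion₂.1 (ht ⟨⟨a₁, a₂⟩, h1, h2⟩)
      exact ⟨⟨U, by simp [hU]⟩, hy⟩
  have it : ∀ n : ℕ, ∀ y, Ψ y ≤ hi → Ψ (T^[n] y) < mid ∨ Ψ (T^[n] y) ≤ hi - n * d := by
    intro n y hy
    induction n with
    | zero => exact Or.inr (by simpa using hy)
    | succ n ih =>
      rw [Function.iterate_succ_apply']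
      by_cases h : Ψ (T^[n] y) < mid
      · exact Or.inl ((t1 _).trans_lt h)
      have h1 := ih.resolve_left h
      have h2 : (0 : ℝ) ≤ n * d := by positivity
      have := t3 _ (not_lt.1 h) (by linarith)
      right
      push_cast
      linarith
  obtain ⟨n, hn⟩ := exists_nat_gt ((hi - mid) / d)
  rw [div_lt_iff₀ hd] at hn
  refine ⟨T^[n], hT.iterate n, fun y hy => Function.iterate_fixed (t2 y hy) n, fun y hy => ?_⟩
  rcases it n y hy with h | h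
  · exact h
  · linarith

end Pool.Agent.P.MP_e1e3b8_co.G
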