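import Pool.Agent.P.MP_e1e3b8_co.G.Link

/-! From the hexagon equations to the inscribed hexagon. -/

namespace Pool.Agent.P.MP_e1e3b8_co.G

open Set Matrix

variable {a b : ℝ} {f g : ℝ → ℝ}

lemma hex_fg (hab : a < b) (hf : ContinuousOn f (Icc a b)) (hg : ContinuousOn g (Icc a b))
    (ha : f a = g a) (hb : f b = g b) (hfg : ∀ x ∈ Ioo a b, f x < g x) :
    ∃ c s t y₀ y₃ : ℝ, 0 ≤ s ∧ 0 ≤ t ∧ 0 < s + t ∧ a ≤ c - s - t ∧ c + s + t ≤ b ∧
      (y₀ = g (c + s + t) ∨ y₀ = f (c + s + t)) ∧ (y₃ = g (c - s - t) ∨ y₃ = f (c - s - t)) ∧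
      y₀ + y₃ = g (c + t) + f (c - t) ∧ y₀ + y₃ = g (c - s) + f (c + s) ∧
      y₀ - g (c + t) + g (c - s) - y₃ + f (c - t) - f (c + s) = 0 := by
  have hp : ∀ x, max a (min x b) ∈ Icc a b := fun x =>
    ⟨le_max_left _ _, max_le hab.le (min_le_right _ _)⟩
  have cf : Continuous fun x => f (max a (min x b)) := hf.comp_continuous (by fun_prop) hp
  have cg : Continuous fun x => g (max a (min x b)) := hg.comp_continuous (by fun_prop) hp
  obtain ⟨m, hm⟩ : ∃ m : ℝ → ℝ, m = fun x => (f (max a (min x b)) + g (max a (min x b))) / 2 :=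
    ⟨_, rfl⟩
  obtain ⟨w, hw⟩ : ∃ w : ℝ → ℝ, w = fun x =>
    g (max a (min x b)) - f (max a (min x b)) + max (x - b) 0 + max (a - x) 0 := ⟨_, rfl⟩
  have cm : Continuous m := hm ▸ (cf.add cg).div_const 2
  have cw : Continuous w := hw ▸ ((cg.sub cf).add (by fun_prop)).add (by fun_prop)
  have k : ∀ x, a ≤ x → x ≤ b → m x + w x / 2 = g x ∧ m x - w x / 2 = f x := fun x h1 h2 => by
    simp only [hm, hw, min_eq_left h2, max_eq_right h1, max_eq_right (sub_nonpos.2 h1),
      max_eq_right (sub_nonpos.2 h2)]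
    constructor <;> ring
  have D : Dat m w (fun u => ∫ x in a..u, m x) (fun u => ∫ x in a..u, w x) a b :=
    ⟨cm, cw, fun x => (cm.integral_hasStrictDerivAt a x).hasDerivAt,
      fun x => (cw.integral_hasStrictDerivAt a x).hasDerivAt, hab,
      by linarith [k a le_rfl hab.le], by linarith [k b hab.le le_rfl], fun x h1 h2 => by
        rcases lt_or_gt_of_ne h1 with h1 | h1
        · have h3 : x ≤ b := by linarith
          simp only [hw, min_eq_left h3, max_eq_left h1.le, max_eq_right (sub_nonpos.2 h3),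
            max_eq_left (sub_nonneg.2 h1.le)]
          linarith
        rcases lt_or_gt_of_ne h2 with h2 | h2
        · linarith [k x h1.le h2.le, hfg x ⟨h1, h2⟩]
        · simp only [hw, min_eq_right h2.le, max_eq_right hab.le, max_eq_left (sub_nonneg.2 h2.le),
            max_eq_right (sub_nonpos.2 h1.le)]
          linarith, by simp⟩
  obtain ⟨c, s, t, y₀, y₃, hs, ht, hst, h3, h0, e0, e3, e1, e2, e4⟩ := D.hex
  have k0 := k (c + s + t) (by linarith) h0
  have k1 := k (c + t) (by linarith) (by linarith)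
  have k2 := k (c - s) (by linarith) (by linarith)
  have k3 := k (c - s - t) h3 (by linarith)
  have k4 := k (c - t) (by linarith) (by linarith)
  have k5 := k (c + s) (by linarith) (by linarith)
  rw [k0.1, k0.2] at e0
  rw [k3.1, k3.2] at e3
  rw [k1.1, k4.2] at e1
  rw [k2.1, k5.2] at e2
  rw [k1.1, k2.1, k4.2, k5.2] at e4
  exact ⟨c, s, t, y₀, y₃, hs, ht, hst, h3, h0, e0, e3, e1, e2, e4⟩

lemma cos_sin (k : Fin 6) :
    Real.cos ((k : ℕ) * Real.pi / 3) = ![1, 1 / 2, -1 / 2, -1, -1 / 2, 1 / 2] k ∧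
    Real.sin ((k : ℕ) * Real.pi / 3) = ![0, 1 / 2, 1 / 2, 0, -1 / 2, -1 / 2] k * √3 := by
  have c1 := Real.cos_pi_div_three
  have s1 := Real.sin_pi_div_three
  fin_cases k
  · simp
  · simp [c1, s1]
    ring
  · have e : ((2 : ℕ) : ℝ) * Real.pi / 3 = Real.pi - Real.pi / 3 := by push_cast; ring
    simp only [e, Real.cos_pi_sub, Real.sin_pi_sub, c1, s1]
    norm_num
    ring
  · have e : ((3 : ℕ) : ℝ) * Real.pi / 3 = Real.pi := by push_cast; ring
    simp only [e, Real.cos_pi, Real.sin_pi]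
    norm_num
  · have e : ((4 : ℕ) : ℝ) * Real.pi / 3 = Real.pi / 3 + Real.pi := by push_cast; ring
    simp only [e, Real.cos_add_pi, Real.sin_add_pi, c1, s1]
    norm_num
    ring
  · have e : ((5 : ℕ) : ℝ) * Real.pi / 3 = 2 * Real.pi - Real.pi / 3 := by push_cast; ring
    simp only [e, Real.cos_two_pi_sub, Real.sin_two_pi_sub, c1, s1]
    norm_num
    ring

lemma convex_line {A : Set ℝ} {h : ℝ → ℝ} (H : ConvexOn ℝ A h) {x y z p q : ℝ} (hx : x ∈ A)
    (hz : z ∈ A) (h1 : x ≤ y) (h2 : y ≤ z) :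
    (h x < p + q * x → h z < p + q * z → h y < p + q * y) ∧
      (h x ≤ p + q * x → h z ≤ p + q * z → h y ≤ p + q * y) := by
  have c : ConvexOn ℝ A fun u => h u - (p + q * u) :=
    ⟨H.1, fun u hu v hv α β hα hβ hs => by
      have := H.2 hu hv hα hβ hs
      simp only [smul_eq_mul] at this ⊢
      have e : p = α * p + β * p := by rw [← add_mul, hs, one_mul]
      linarith⟩
  have := c.le_on_segment hx hz (z := y) (by rw [segment_eq_Icc (h1.trans h2)]; exact ⟨h1, h2⟩)
  rcases le_max_iff.1 this with k | k <;> constructor <;> intro _ _ <;> linarith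

theorem twoGraphs (hab : a < b) (hf : ContinuousOn f (Icc a b)) (hg : ContinuousOn g (Icc a b))
    (ha : f a = g a) (hb : f b = g b) (hfg : ∀ x ∈ Ioo a b, f x < g x) :
    ∃ (M : Matrix (Fin 2) (Fin 2) ℝ) (o : Fin 2 → ℝ) (P : Fin 6 → Fin 2 → ℝ),
      (∀ k : Fin 6, P k =
        M *ᵥ ![Real.cos ((k : ℕ) * Real.pi / 3), Real.sin ((k : ℕ) * Real.pi / 3)] + o) ∧
      Function.Injective P ∧
      (∀ k, P k 0 ∈ Icc a b ∧ (P k 1 = f (P k 0) ∨ P k 1 = g (P k 0))) ∧
      (P 1 1 = g (P 1 0) ∧ P 2 1 = g (P 2 0) ∧ P 4 1 = f (P 4 0) ∧ P 5 1 = f (P 5 0)) ∧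
      ((∀ k, P 3 0 ≤ P k 0 ∧ P k 0 ≤ P 0 0) ∧ P 2 0 < P 1 0 ∧ P 4 0 < P 5 0) ∧
      ∀ h : ℝ → ℝ, ConvexOn ℝ (Ioo a b) h ∨ ConcaveOn ℝ (Ioo a b) h →
        (∀ x ∈ Ioo a b, f x ≤ h x ∧ h x < g x) ∨ (∀ x ∈ Ioo a b, f x < h x ∧ h x ≤ g x) →
        M.det ≠ 0 := by
  obtain ⟨c, s, t, y₀, y₃, hs, ht, hst, h3, h0, e0, e3, e1, e2, e4⟩ := hex_fg hab hf hg ha hb hfg
  have s3 : √3 ≠ 0 := by positivity
  have z1 : s = 0 → f (c + s) < g (c - s) := fun e => by
    simpa [e] using hfg c ⟨by linarith, by linarith⟩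
  have z2 : t = 0 → f (c - t) < g (c + t) := fun e => by
    simpa [e] using hfg c ⟨by linarith, by linarith⟩
  have z3 : s = t → f (c + s) < g (c + t) ∧ f (c - t) < g (c - s) := fun e => by
    subst e
    exact ⟨hfg _ ⟨by linarith, by linarith⟩, hfg _ ⟨by linarith, by linarith⟩⟩
  refine ⟨!![s + t, (t - s) / √3; (y₀ - y₃) / 2, (g (c + t) + g (c - s) - (y₀ + y₃)) / √3],
    ![c, (y₀ + y₃) / 2], ![![c + s + t, y₀], ![c + t, g (c + t)], ![c - s, g (c - s)],
      ![c - s - t, y₃], ![c - t, f (c - t)], ![c + s, f (c + s)]], fun k => ?_, fun j k e => ?_,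
    fun k => ?_, by simp, ⟨fun k => ?_, by simp; linarith, by simp; linarith⟩, fun h H hh e => ?_⟩
  · rw [(cos_sin k).1, (cos_sin k).2]
    funext i
    fin_cases k <;> fin_cases i <;> simp <;> (try field_simp) <;> linarith
  · have x := congrFun e 0
    have y := congrFun e 1
    by_cases q1 : s = 0
    · have := z1 q1
      fin_cases j <;> fin_cases k <;> simp only [Fin.reduceFinMk, cons_val] at x y <;>
        first | rfl | (exfalso; linarith)
    by_cases q2 : t = 0
    · have := z2 q2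
      fin_cases j <;> fin_cases k <;> simp only [Fin.reduceFinMk, cons_val] at x y <;>
        first | rfl | (exfalso; linarith)
    have r1 := hs.lt_of_ne' q1
    have r2 := ht.lt_of_ne' q2
    fin_cases j <;> fin_cases k <;> simp only [Fin.reduceFinMk, cons_val] at x y <;>
      first | rfl | (exfalso; linarith) | (exfalso; linarith [z3 (by linarith)])
  · fin_cases k <;> simp only [Fin.reduceFinMk, cons_val, true_or, or_true, and_true]
    · exact ⟨⟨by linarith, h0⟩, e0.symm⟩
    · exact ⟨by linarith, by linarith⟩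
    · exact ⟨by linarith, by linarith⟩
    · exact ⟨⟨h3, by linarith⟩, e3.symm⟩
    · exact ⟨by linarith, by linarith⟩
    · exact ⟨by linarith, by linarith⟩
  · fin_cases k <;> simp only [Fin.reduceFinMk, cons_val] <;> constructor <;> linarith
  · rw [det_fin_two_of] at e
    field_simp at e
    obtain ⟨q, hq⟩ : ∃ q, (y₀ - y₃) / 2 = q * (s + t) := ⟨(y₀ - y₃) / 2 / (s + t), by field_simp⟩
    obtain ⟨p, hp⟩ : ∃ p, (y₀ + y₃) / 2 = p + q * c := ⟨(y₀ + y₃) / 2 - q * c, by ring⟩
    have u : y₀ = p + q * c + q * (s + t) := by linarith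
    have v : y₃ = p + q * c - q * (s + t) := by linarith
    have l12 : g (c - s) = g (c + t) - q * (s + t) := by linarith
    have l1 : g (c + t) = p + q * (c + t) := by
      rw [l12, u, v] at e
      exact mul_left_cancel₀ hst.ne' (by linarith)
    have l2 : g (c - s) = p + q * (c - s) := by linarith
    have l4 : f (c - t) = p + q * (c - t) := by linarith
    have l5 : f (c + s) = p + q * (c + s) := by linarith
    have r1 : 0 < s := hs.lt_of_ne' fun q1 => by
      have := z1 q1
      rw [l2, l5, q1] at this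
      linarith
    have r2 : 0 < t := ht.lt_of_ne' fun q2 => by
      have := z2 q2
      rw [l1, l4, q2] at this
      linarith
    have m1 : c + t ∈ Ioo a b := ⟨by linarith, by linarith⟩
    have m2 : c - s ∈ Ioo a b := ⟨by linarith, by linarith⟩
    have m4 : c - t ∈ Ioo a b := ⟨by linarith, by linarith⟩
    have m5 : c + s ∈ Ioo a b := ⟨by linarith, by linarith⟩
    rcases H with H | H
    · rcases le_total s t with st | st
      · have := convex_line H (y := c + s) (p := p) (q := q) m2 m1 (by linarith) (by linarith)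
        rcases hh with hh | hh
        · linarith [this.1 (l2 ▸ (hh _ m2).2) (l1 ▸ (hh _ m1).2), (hh _ m5).1]
        · linarith [this.2 (l2 ▸ (hh _ m2).2) (l1 ▸ (hh _ m1).2), (hh _ m5).1]
      · have := convex_line H (y := c - t) (p := p) (q := q) m2 m1 (by linarith) (by linarith)
        rcases hh with hh | hh
        · linarith [this.1 (l2 ▸ (hh _ m2).2) (l1 ▸ (hh _ m1).2), (hh _ m4).1]
        · linarith [this.2 (l2 ▸ (hh _ m2).2) (l1 ▸ (hh _ m1).2), (hh _ m4).1]
    · rcases le_total s t with st | st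
      · have := convex_line H.neg (y := c - s) (p := -p) (q := -q) m4 m5 (by linarith)
          (by linarith)
        simp only [Pi.neg_apply] at this
        rcases hh with hh | hh
        · linarith [this.2 (by linarith [(hh _ m4).1]) (by linarith [(hh _ m5).1]), (hh _ m2).2]
        · linarith [this.1 (by linarith [(hh _ m4).1]) (by linarith [(hh _ m5).1]), (hh _ m2).2]
      · have := convex_line H.neg (y := c + t) (p := -p) (q := -q) m4 m5 (by linarith)
          (by linarith)
        simp only [Pi.neg_apply] at this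
        rcases hh with hh | hh
        · linarith [this.2 (by linarith [(hh _ m4).1]) (by linarith [(hh _ m5).1]), (hh _ m1).2]
        · linarith [this.1 (by linarith [(hh _ m4).1]) (by linarith [(hh _ m5).1]), (hh _ m1).2]

end Pool.Agent.P.MP_e1e3b8_co.G
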