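import Pool.Agent.P.MP_e1e3b8_co.G.Crit
import Pool.Agent.P.MP_5c5cb0_co.Box

/-! A low disc linked with a high sphere forces a critical point at an intermediate level. -/

namespace Pool.Agent.P.MP_e1e3b8_co.G

open Set Filter Topology Metric

variable {m w M W : ℝ → ℝ} {a b : ℝ}

lemma th_ge {η μ k : ℝ} (h : |η| ≤ 1) (hk : k ≤ 1) (hμ : k ≤ μ) : k * |η| ≤ th η μ := by
  rcases le_total η 0 with h0 | h0
  · rw [th, cl_of_le h0, abs_of_nonpos h0]
    nlinarith
  · rw [abs_of_nonneg h0] at h ⊢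
    rw [th, cl_of_mem h0 h]
    nlinarith

lemma th_le {x μ : ℝ} (h : x ≤ 0 ∨ μ = 0) : th (max x 0) μ ≤ min 0 (1 - x) := by
  rcases le_total x 0 with h0 | h0
  · rw [max_eq_right h0, th, cl_of_le le_rfl, min_eq_left (by linarith)]
    simp
  rw [max_eq_left h0]
  rcases h with h | rfl
  · rw [le_antisymm h h0, th, cl_of_le le_rfl]
    simp
  · rcases le_total x 1 with h1 | h1
    · rw [th, cl_of_mem h0 h1, min_eq_left (by linarith)]
      simp
    · rw [th, cl_of_ge h1, min_eq_right (by linarith)]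
      simp

lemma Dat.barrier (D : Dat m w M W a b) : ∃ r e : ℝ, 0 < r ∧ r < 1 ∧ 0 < e ∧
    ∀ y : Fin 5 → ℝ, y 0 = (a + b) / 2 → |y 1| + |y 2| + |y 3| + |y 4| = r →
      e ≤ Psi M W (W b) y := by
  have ab := D.ab
  obtain ⟨c, hc⟩ : ∃ c, c = (a + b) / 2 := ⟨_, rfl⟩
  rw [← hc]
  have w0 := D.pos c (by linarith) (by linarith)
  have p1 : W c < W b := D.mono (by linarith)
  have p2 : 0 < W c := D.Wa ▸ D.mono (by linarith)
  have cW : Continuous fun h => W (c + h) := D.cW.comp (by fun_prop)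
  have hω : 0 < w c / 12 := by positivity
  obtain ⟨δ, hδ, H⟩ := Metric.eventually_nhds_iff.1
    ((((hasDerivAt_iff_isLittleO_nhds_zero.1 (D.dM c)).bound hω).and
      ((hasDerivAt_iff_isLittleO_nhds_zero.1 (D.dW c)).bound hω)).and
      (((cW.tendsto 0).eventually_lt_const (u := (W c + W b) / 2)
        (by simp only [add_zero]; linarith)).and
      ((cW.tendsto 0).eventually_const_lt (u := W c / 2) (by simp only [add_zero]; linarith))))
  have P : ∀ h, 0 ≤ h → h < δ → (|M (c + h) - M c - h * m c| ≤ w c / 12 * h ∧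
      |W (c + h) - W c - h * w c| ≤ w c / 12 * h ∧ W (c + h) < (W c + W b) / 2) ∧
      |M (c - h) - M c + h * m c| ≤ w c / 12 * h ∧
      |W (c - h) - W c + h * w c| ≤ w c / 12 * h ∧ W c / 2 < W (c - h) := fun h h0 h1 => by
    have k1 := H (y := h) (by simpa [abs_of_nonneg h0])
    have k2 := H (y := -h) (by simpa [abs_of_nonneg h0])
    simp only [smul_eq_mul, Real.norm_eq_abs, abs_neg, abs_of_nonneg h0, neg_mul, sub_neg_eq_add,
      ← sub_eq_add_neg] at k1 k2
    exact ⟨⟨k1.1.1, k1.1.2, k1.2.1⟩, k2.1.1, k2.1.2, k2.2.2⟩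
  obtain ⟨k, k0, k1, k2, k3, k4⟩ : ∃ k : ℝ, 0 < k ∧ k ≤ 1 ∧ k ≤ w c / 2 ∧ k ≤ W c / 2 ∧
      k ≤ (W b - W c) / 2 :=
    ⟨min (min 1 (w c / 2)) (min (W c / 2) ((W b - W c) / 2)),
      lt_min (lt_min one_pos (by linarith)) (lt_min (by linarith) (by linarith)),
      (min_le_left _ _).trans (min_le_left _ _), (min_le_left _ _).trans (min_le_right _ _),
      (min_le_right _ _).trans (min_le_left _ _), (min_le_right _ _).trans (min_le_right _ _)⟩
  have r0 : 0 < min (δ / 4) (1 / 2) := by positivity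
  have r1 := min_le_left (δ / 4) (1 / 2)
  have r2 := min_le_right (δ / 4) (1 / 2)
  refine ⟨min (δ / 4) (1 / 2), k * min (δ / 4) (1 / 2), r0, by linarith, mul_pos k0 r0,
    fun y y0 hy => ?_⟩
  obtain ⟨ε, hε, a2, -⟩ := exists_sign (y 2) 0
  have n1 := abs_nonneg (y 1)
  have n2 := abs_nonneg (y 2)
  have n3 := abs_nonneg (y 3)
  have n4 := abs_nonneg (y 4)
  have s0 := sv_nonneg y
  have t0 := tv_nonneg y
  have st := sv_add_tv y
  obtain ⟨⟨A1, A2, A3⟩, A4, A5, A6⟩ := P (sv y + tv y) (by linarith) (by linarith)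
  obtain ⟨⟨B1, B2, -⟩, B4, B5, -⟩ := P (sv y) s0 (by linarith)
  obtain ⟨⟨C1, C2, -⟩, C4, C5, -⟩ := P (tv y) t0 (by linarith)
  rw [← add_assoc] at A1 A2 A3
  rw [← sub_sub] at A4 A5 A6
  rw [abs_le] at A1 A2 A4 A5 B1 B2 B4 B5 C1 C2 C4 C5
  have T1 := th_ge (η := y 3) (μ := W b - W (c + sv y + tv y)) (by linarith) k1 (by linarith)
  have T2 := th_ge (η := y 4) (μ := W (c - sv y - tv y)) (by linarith) k1 (by linarith)
  have T3 := mul_le_mul_of_nonneg_right k2 (add_nonneg s0 t0)
  have T4 := mul_le_mul_of_nonneg_left (show |y 1| + |y 2| ≤ sv y + tv y by linarith) k0.le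
  rw [psi_piece _ hε a2, y0, ← hy, T, Nf, Kf]
  rcases hε with rfl | rfl <;>
    linarith [A1.1, A1.2, A2.1, A4.1, A4.2, A5.2, B1.1, B1.2, B2.1, B4.1, B4.2, B5.1, C1.1, C1.2,
      C2.2, C4.1, C4.2, C5.2]

/-- The points of the disc. -/
noncomputable def pt (a b l u : ℝ) : Fin 5 → ℝ :=
  ![(min l b + max u a) / 2, -((min l b - max u a) / 2), 0, max (l - b) 0, max (a - u) 0]

lemma Dat.psi_pt (D : Dat m w M W a b) {l u : ℝ} (h : u ≤ l) (hl : a ≤ l) (hu : u ≤ b) :
    Psi M W (W b) (pt a b l u) ≤ W ((min l b + max u a) / 2) - W (max u a) +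
      min 0 (1 - (l - b)) + min 0 (1 - (a - u)) := by
  have h1 : max u a ≤ min l b := max_le (le_min h hu) (le_min hl D.ab.le)
  have hs : sv (pt a b l u) = 0 := by
    simp only [sv, pt, Matrix.cons_val, abs_zero, add_zero]
    exact max_eq_right (by linarith)
  have ht : tv (pt a b l u) = (min l b - max u a) / 2 := by
    simp only [tv, pt, Matrix.cons_val, abs_zero, add_zero, neg_neg]
    exact max_eq_left (by linarith)
  have e0 : (min l b + max u a) / 2 + (min l b - max u a) / 2 = min l b := by ring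
  have e3 : (min l b + max u a) / 2 - (min l b - max u a) / 2 = max u a := by ring
  have k1 := th_le (x := l - b) (μ := W b - W (min l b)) ((le_total l b).imp sub_nonpos.2
    fun h => by rw [min_eq_right h, sub_self])
  have k2 := th_le (x := a - u) (μ := W (max u a)) ((le_total a u).imp sub_nonpos.2
    fun h => by rw [max_eq_right h, D.Wa])
  rw [psi_piece _ (.inl rfl) (by simp [pt]), hs, ht]
  simp only [T, Nf, Kf, pt, Matrix.cons_val, add_zero, sub_zero, e0, e3]
  linarith

theorem Dat.hex (D : Dat m w M W a b) : Hex m w a b := by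
  by_contra hH
  obtain ⟨r, e, r0, r1, e0, hB⟩ := D.barrier
  have ab := D.ab
  have mo := D.mono
  have Wa := D.Wa
  have S0 : 0 < W b := Wa ▸ mo ab
  obtain ⟨k, k0, k1, k2, k3⟩ : ∃ k : ℝ, 0 < k ∧ k ≤ 1 / 4 ∧ k ≤ W (b + 1) - W b ∧
      k ≤ -W (a - 1) := by
    have h1 : W b < W (b + 1) := mo (by linarith)
    have h2 : W (a - 1) < W a := mo (by linarith)
    exact ⟨min (1 / 4) (min (W (b + 1) - W b) (-W (a - 1))),
      lt_min (by norm_num) (lt_min (by linarith) (by linarith)), min_le_left _ _,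
      (min_le_right _ _).trans (min_le_left _ _), (min_le_right _ _).trans (min_le_right _ _)⟩
  have L : ∀ y z : Fin 5 → ℝ, dist z y ≤ k →
      |z 0 - y 0| ≤ 1 / 4 ∧ sv y + tv y - 3 / 4 ≤ sv z + tv z := fun y z h => by
    have q : ∀ i, |z i - y i| ≤ 1 / 4 := fun i =>
      Real.dist_eq _ _ ▸ ((dist_le_pi_dist z y i).trans h).trans k1
    have q1 := abs_sub_abs_le_abs_sub (y 1) (z 1)
    have q2 := abs_sub_abs_le_abs_sub (y 2) (z 2)
    rw [abs_sub_comm] at q1 q2
    rw [sv_add_tv, sv_add_tv]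
    exact ⟨q 0, by linarith [q 1, q 2]⟩
  have d1 := eta_inf 3 (psi_eta (M := M) (W := W) (W b)) {y | b + 2 < y 0 + sv y + tv y} k0 k1
    fun y hy z hz => by
      have h1 : b + 2 < y 0 + sv y + tv y := hy
      have h2 := L y z hz
      have := mo.monotone (show b + 1 ≤ z 0 + sv z + tv z by linarith [(abs_le.1 h2.1).1, h2.2])
      linarith
  have d2 := eta_inf 4 (psi_zeta (M := M) (W := W) (W b)) {y | y 0 - sv y - tv y < a - 2} k0 k1
    fun y hy z hz => by
      have h1 : y 0 - sv y - tv y < a - 2 := hy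
      have h2 := L y z hz
      have := mo.monotone (show z 0 - sv z - tv z ≤ a - 1 by linarith [(abs_le.1 h2.1).2, h2.2])
      linarith
  have hhi : max (W ((b + (a + b) / 2) / 2)) (W b - W ((a + b) / 2)) < W b :=
    max_lt (mo (by linarith)) (by linarith [mo (show a < (a + b) / 2 by linarith)])
  obtain ⟨F, hF, t1, t2⟩ := deform (D.cPsi (W b))
    (((isOpen_lt (by fun_prop) (by fun_prop)).union (isOpen_lt (by fun_prop) (by fun_prop))).union
      (isOpen_lt (by fun_prop) (by fun_prop)))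
    (((isOpen_lt (by fun_prop) (by fun_prop)).union (isOpen_lt (by fun_prop) (by fun_prop))).union
      (isOpen_lt (by fun_prop) (by fun_prop))) d1 d2 (R := |a| + |b| + 2)
    (fun y h1 h2 => by
      simp only [mem_union, mem_ofPred_eq, not_or, not_lt] at h1 h2
      have := sv_add_tv y
      have := abs_nonneg (y 1)
      have := abs_nonneg (y 2)
      have := abs_nonneg a
      have := abs_nonneg b
      have := neg_abs_le a
      have := le_abs_self b
      refine (pi_norm_le_iff_of_nonneg (by positivity)).2 fun i => ?_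
      fin_cases i <;> simp only [Real.norm_eq_abs, Fin.reduceFinMk]
      · exact abs_le.2 ⟨by linarith [h2.2], by linarith [h1.2]⟩
      · linarith [h1.2, h2.2]
      · linarith [h1.2, h2.2]
      · exact abs_le.2 ⟨by linarith [h1.1.1], by linarith [h1.1.2]⟩
      · exact abs_le.2 ⟨by linarith [h2.1.1], by linarith [h2.1.2]⟩)
    e0 fun y _ _ h1 h2 => D.crit hH y (e0.trans_le h1) (h2.trans_lt hhi)
  obtain ⟨R, hR⟩ : ∃ R, R = 2 * (b - a + W b + 1) := ⟨_, rfl⟩
  have R0 : 0 ≤ R := by linarith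
  obtain ⟨σ, hσ⟩ : ∃ σ : (Fin 2 → ℝ) → Fin 5 → ℝ, σ = fun z =>
    pt a b (a + z 0 * (b - a) + z 1 * z 0 * R) (a + z 0 * (b - a) - z 1 * (1 - z 0) * R) :=
    ⟨_, rfl⟩
  have cσ : Continuous σ := by
    rw [hσ]
    unfold pt
    fun_prop
  obtain ⟨z, hz, p1, p2⟩ := MP_5c5cb0_co.exists_wall (fun _ : Fin 2 => 1) (fun _ => zero_le_one)
    (fun z => ![(a + b) / 2 - F (σ z) 0,
      r - (|F (σ z) 1| + |F (σ z) 2| + |F (σ z) 3| + |F (σ z) 4|)]) (by fun_prop)
  obtain ⟨i0, i1⟩ := hz 0
  obtain ⟨j0, j1⟩ := hz 1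
  obtain ⟨l, hl⟩ : ∃ l, l = a + z 0 * (b - a) + z 1 * z 0 * R := ⟨_, rfl⟩
  obtain ⟨u, hu⟩ : ∃ u, u = a + z 0 * (b - a) - z 1 * (1 - z 0) * R := ⟨_, rfl⟩
  have hs : σ z = pt a b l u := by rw [hσ, hl, hu]
  have n1 := mul_nonneg i0 (sub_nonneg.2 ab.le)
  have n2 := mul_nonneg (sub_nonneg.2 i1) (sub_nonneg.2 ab.le)
  have n3 := mul_nonneg (mul_nonneg j0 i0) R0
  have n4 := mul_nonneg (mul_nonneg j0 (sub_nonneg.2 i1)) R0
  have al : a ≤ l := by linarith
  have ub : u ≤ b := by linarith
  have K := D.psi_pt (l := l) (u := u) (by linarith) al ub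
  have m1 := min_le_left 0 (1 - (l - b))
  have m2 := min_le_left 0 (1 - (a - u))
  have m3 := min_le_right l b
  have m4 := le_max_right u a
  have m5 : max u a ≤ b := max_le ub ab.le
  have m6 := mo.monotone (show (min l b + max u a) / 2 ≤ b by linarith)
  have m7 := mo.monotone m4
  have lo := t2 (pt a b l u) (by
    rcases le_total (max u a) ((a + b) / 2) with h | h
    · have := mo.monotone (show (min l b + max u a) / 2 ≤ (b + (a + b) / 2) / 2 by linarith)
      exact le_max_of_le_left (by linarith)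
    · exact le_max_of_le_right (by linarith [mo.monotone h]))
  have p10 := p1 0
  have p11 := p1 1
  have p20 := p2 0
  have p21 := p2 1
  simp only [hs, Matrix.cons_val] at p10 p11 p20 p21
  refine lo.not_ge (hB _ (le_antisymm (not_lt.1 fun h => ?_) (not_lt.1 fun h => ?_))
    (le_antisymm (not_lt.1 fun h => ?_) (not_lt.1 fun h => ?_)))
  · have e1 := p20 (by linarith)
    have e2 : min l b = a := by rw [hl, e1]; simp [ab.le]
    have e3 : max u a = a := max_eq_right (by rw [e1] at hu n4; linarith)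
    rw [e2, e3, add_self_div_two] at K
    rw [t1 _ (by linarith)] at h
    simp only [pt, Matrix.cons_val, e2, e3] at h
    linarith
  · have e1 := p10 (by linarith)
    have e2 : min l b = b := min_eq_right (by rw [e1] at hl n3; linarith)
    have e3 : max u a = b := by rw [hu, e1]; simp [ab.le]
    rw [e2, e3, add_self_div_two] at K
    rw [t1 _ (by linarith)] at h
    simp only [pt, Matrix.cons_val, e2, e3] at h
    linarith
  · have e1 := p21 (by linarith)
    rw [e1] at hl hu
    have e2 : min l b = l := min_eq_left (by linarith)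
    have e3 : max u a = l := by rw [max_eq_left (by linarith)]; linarith
    rw [e2, e3, add_self_div_two] at K
    rw [t1 _ (by linarith)] at h
    simp only [pt, Matrix.cons_val, e2, e3, max_eq_right (show l - b ≤ 0 by linarith),
      max_eq_right (show a - u ≤ 0 by linarith)] at h
    simp at h
    linarith
  · have e1 := p11 (by linarith)
    rw [e1] at hl hu
    have e2 : W b + 1 ≤ l - b ∨ W b + 1 ≤ a - u := by
      rcases le_total (z 0) (1 / 2) with g | g
      · right
        nlinarith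
      · left
        nlinarith
    have m8 := min_le_right 0 (1 - (l - b))
    have m9 := min_le_right 0 (1 - (a - u))
    rw [t1 _ (by rcases e2 with g | g <;> linarith)] at h
    simp only [pt, Matrix.cons_val] at h
    have := abs_nonneg (-((min l b - max u a) / 2))
    have := le_abs_self (max (l - b) 0)
    have := le_abs_self (max (a - u) 0)
    have := le_max_left (l - b) 0
    have := le_max_left (a - u) 0
    have := le_max_right (l - b) 0
    have := le_max_right (a - u) 0
    rw [abs_zero] at h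
    rcases e2 with g | g <;> linarith

end Pool.Agent.P.MP_e1e3b8_co.G
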