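import Pool.Agent.P.MP_e1e3b8_co.G.Deform

/-! A piecewise smooth function on five-space whose critical points are inscribed hexagons. -/

namespace Pool.Agent.P.MP_e1e3b8_co.G

open Set Filter Topology Metric

/-- Mid-line `m`, width `w` and their primitives. -/
structure Dat (m w M W : ℝ → ℝ) (a b : ℝ) : Prop where
  cm : Continuous m
  cw : Continuous w
  dM : ∀ x, HasDerivAt M (m x) x
  dW : ∀ x, HasDerivAt W (w x) x
  ab : a < b
  wa : w a = 0
  wb : w b = 0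
  pos : ∀ x, x ≠ a → x ≠ b → 0 < w x
  Wa : W a = 0

/-- Clamp to the unit interval. -/
noncomputable def cl (x : ℝ) : ℝ := max 0 (min x 1)

/-- The switch between the upper and the lower graph. -/
noncomputable def th (η μ : ℝ) : ℝ := (μ + 1) * cl η - η

/-- The part coming from the mid-line. -/
def Nf (M : ℝ → ℝ) (c s t : ℝ) : ℝ :=
  M (c + s + t) - M (c - s - t) - M (c + s) + M (c - s) - M (c + t) + M (c - t)

/-- The part coming from the width. -/
noncomputable def Kf (W : ℝ → ℝ) (c s t : ℝ) : ℝ :=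
  (W (c + s + t) - W (c - s - t) + W (c + s) + W (c - s) - W (c + t) - W (c - t)) / 2

/-- One smooth sheet. -/
noncomputable def T (M W : ℝ → ℝ) (S ε c s t η ζ : ℝ) : ℝ :=
  ε * Nf M c s t + Kf W c s t + th η (S - W (c + s + t)) + th ζ (W (c - s - t))

/-- First half-width. -/
noncomputable def sv (y : Fin 5 → ℝ) : ℝ := max (y 1) 0 + |y 2|

/-- Second half-width. -/
noncomputable def tv (y : Fin 5 → ℝ) : ℝ := max (-y 1) 0 + |y 2|

/-- The glued function. -/
noncomputable def Psi (M W : ℝ → ℝ) (S : ℝ) (y : Fin 5 → ℝ) : ℝ :=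
  Nf M (y 0) (max (y 1) 0 + max (y 2) 0) (max (-y 1) 0 + max (y 2) 0) -
    Nf M (y 0) (max (y 1) 0 + max (-y 2) 0) (max (-y 1) 0 + max (-y 2) 0) +
    Kf W (y 0) (sv y) (tv y) + th (y 3) (S - W (y 0 + sv y + tv y)) +
    th (y 4) (W (y 0 - sv y - tv y))

/-- The derivative of a sheet in the direction `(u, p, q)`. -/
noncomputable def Dr (m w : ℝ → ℝ) (ε α β c s t u p q : ℝ) : ℝ :=
  (ε * m (c + s + t) + (1 / 2 - α) * w (c + s + t)) * (u + p + q) -
    (ε * m (c - s - t) + (1 / 2 - β) * w (c - s - t)) * (u - p - q) -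
    (ε * m (c + s) - w (c + s) / 2) * (u + p) + (ε * m (c - s) + w (c - s) / 2) * (u - p) -
    (ε * m (c + t) + w (c + t) / 2) * (u + q) + (ε * m (c - t) - w (c - t) / 2) * (u - q)

/-- The hexagon equations have a solution. -/
def Hex (m w : ℝ → ℝ) (a b : ℝ) : Prop :=
  ∃ c s t y₀ y₃ : ℝ, 0 ≤ s ∧ 0 ≤ t ∧ 0 < s + t ∧ a ≤ c - s - t ∧ c + s + t ≤ b ∧
    (y₀ = m (c + s + t) + w (c + s + t) / 2 ∨ y₀ = m (c + s + t) - w (c + s + t) / 2) ∧
    (y₃ = m (c - s - t) + w (c - s - t) / 2 ∨ y₃ = m (c - s - t) - w (c - s - t) / 2) ∧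
    y₀ + y₃ = m (c + t) + w (c + t) / 2 + (m (c - t) - w (c - t) / 2) ∧
    y₀ + y₃ = m (c - s) + w (c - s) / 2 + (m (c + s) - w (c + s) / 2) ∧
    y₀ - (m (c + t) + w (c + t) / 2) + (m (c - s) + w (c - s) / 2) - y₃ +
      (m (c - t) - w (c - t) / 2) - (m (c + s) - w (c + s) / 2) = 0

variable {m w M W : ℝ → ℝ} {a b : ℝ}

@[fun_prop] lemma continuous_cl : Continuous cl := by unfold cl; fun_prop

@[fun_prop] lemma continuous_sv : Continuous sv := by unfold sv; fun_prop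

@[fun_prop] lemma continuous_tv : Continuous tv := by unfold tv; fun_prop

lemma Dat.cM (D : Dat m w M W a b) : Continuous M :=
  continuous_iff_continuousAt.2 fun x => (D.dM x).continuousAt

lemma Dat.cW (D : Dat m w M W a b) : Continuous W :=
  continuous_iff_continuousAt.2 fun x => (D.dW x).continuousAt

lemma Dat.mono (D : Dat m w M W a b) : StrictMono W := by
  have k : ∀ A : Set ℝ, Convex ℝ A → a ∉ interior A → b ∉ interior A → StrictMonoOn W A :=
    fun A hA ha hb => strictMonoOn_of_deriv_pos hA D.cW.continuousOn fun x hx => by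
      rw [(D.dW x).deriv]
      exact D.pos x (fun e => ha (e ▸ hx)) fun e => hb (e ▸ hx)
  have h1 := k (Iic a) (convex_Iic a) (by simp) (by simp [D.ab.le])
  have h2 := k (Icc a b) (convex_Icc a b) (by simp) (by simp)
  have h3 := k (Ici b) (convex_Ici b) (by simp [D.ab.le]) (by simp)
  have h4 := h1.union h2 isGreatest_Iic (isLeast_Icc D.ab.le)
  rw [Iic_union_Icc_eq_Iic D.ab.le] at h4
  exact h4.Iic_union_Ici h3

lemma Dat.cPsi (D : Dat m w M W a b) (S : ℝ) : Continuous (Psi M W S) := by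
  have := D.cM
  have := D.cW
  unfold Psi Nf Kf th
  fun_prop

lemma cl_of_mem {x : ℝ} (h0 : 0 ≤ x) (h1 : x ≤ 1) : cl x = x := by
  rw [cl, min_eq_left h1, max_eq_right h0]

lemma cl_of_le {x : ℝ} (h0 : x ≤ 0) : cl x = 0 :=
  max_eq_left ((min_le_left _ _).trans h0)

lemma cl_of_ge {x : ℝ} (h1 : 1 ≤ x) : cl x = 1 := by
  rw [cl, min_eq_right h1, max_eq_right zero_le_one]

lemma th_neg {η μ h k : ℝ} (hh : 0 ≤ h) (hk : k ≤ 1) (hμ : μ ≤ -k) :
    th (η + h) μ ≤ th η μ - k * h := by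
  have h1 : 0 ≤ cl (η + h) - cl η ∧ cl (η + h) - cl η ≤ h := by
    unfold cl
    simp only [max_def, min_def]
    split_ifs <;> constructor <;> linarith
  unfold th
  nlinarith [mul_nonneg h1.1 (sub_nonneg.2 hμ), mul_nonneg (sub_nonneg.2 h1.2) (sub_nonneg.2 hk)]

lemma norm_single (i : Fin 5) : ‖(Pi.single i 1 : Fin 5 → ℝ)‖ ≤ 1 := by
  rw [Pi.norm_single, norm_one]

lemma eta_loc {Ψ μ : (Fin 5 → ℝ) → ℝ} (i : Fin 5) (hμ : Continuous μ)
    (H : ∀ z (h : ℝ), Ψ (z + h • Pi.single i 1) = Ψ z - th (z i) (μ z) + th (z i + h) (μ z))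
    {y : Fin 5 → ℝ} (hn : ¬LocDesc Ψ y) :
    0 ≤ μ y ∧ 0 ≤ y i ∧ y i ≤ 1 ∧ (y i = 0 ∨ y i = 1 ∨ μ y = 0) := by
  have c1 : Continuous fun p : (Fin 5 → ℝ) × ℝ => p.1 i := by fun_prop
  have c2 : Continuous fun p : (Fin 5 → ℝ) × ℝ => p.1 i + p.2 := by fun_prop
  have c3 : Continuous fun p : (Fin 5 → ℝ) × ℝ => μ p.1 := by fun_prop
  have c4 : Continuous fun p : (Fin 5 → ℝ) × ℝ => p.1 i - p.2 := by fun_prop
  have h1 : 0 ≤ μ y := by
    by_contra h
    have k0 : 0 < min 1 (-μ y / 2) := lt_min one_pos (by linarith)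
    refine hn (locDesc_of_eventually (norm_single i) k0 ?_)
    filter_upwards [(c3.tendsto (y, 0)).eventually_lt_const (u := μ y / 2) (by simp only; linarith)]
      with p hp h0
    have := th_neg (η := p.1 i) (μ := μ p.1) h0 (min_le_left 1 (-μ y / 2))
      (by linarith [min_le_right 1 (-μ y / 2)])
    rw [H]
    linarith
  have h2 : 0 ≤ y i := by
    by_contra h
    refine hn (locDesc_of_eventually (norm_single i) one_pos ?_)
    filter_upwards [(c2.tendsto (y, 0)).eventually_lt_const (u := 0) (by simp only; linarith)]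
      with p hp h0
    rw [H, th, th, cl_of_le hp.le, cl_of_le (by linarith)]
    linarith
  have h3 : y i ≤ 1 := by
    by_contra h
    refine hn (locDesc_of_eventually (norm_single i) one_pos ?_)
    filter_upwards [(c1.tendsto (y, 0)).eventually_const_lt (u := 1) (by simp only; linarith)]
      with p hp h0
    rw [H, th, th, cl_of_ge hp.le, cl_of_ge (by linarith)]
    linarith
  refine ⟨h1, h2, h3, ?_⟩
  by_contra h
  push Not at h
  have k0 : 0 < μ y := h1.lt_of_ne' h.2.2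
  refine hn (locDesc_of_eventually (V := -Pi.single i 1) (by rw [norm_neg]; exact norm_single i)
    (half_pos k0) ?_)
  filter_upwards [(c1.tendsto (y, 0)).eventually_lt_const (u := 1) (h3.lt_of_ne h.2.1),
    (c4.tendsto (y, 0)).eventually_const_lt (u := 0) (by simpa using h2.lt_of_ne' h.1),
    (c3.tendsto (y, 0)).eventually_const_lt (u := μ y / 2) (by simp only; linarith)]
    with p p1 p2 p3 h0
  rw [smul_neg, ← neg_smul, H, th, th, cl_of_mem (by linarith) p1.le,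
    cl_of_mem (by linarith) (by linarith)]
  nlinarith [mul_nonneg h0 (sub_nonneg.2 p3.le)]

lemma eta_inf {Ψ μ : (Fin 5 → ℝ) → ℝ} (i : Fin 5)
    (H : ∀ z (h : ℝ), Ψ (z + h • Pi.single i 1) = Ψ z - th (z i) (μ z) + th (z i + h) (μ z))
    (Q : Set (Fin 5 → ℝ)) {k : ℝ} (hk : 0 < k) (hk1 : k ≤ 1 / 4)
    (hQ : ∀ y ∈ Q, ∀ z, dist z y ≤ k → μ z ≤ -k) :
    Desc Ψ ({y | y i < -1} ∪ {y | 2 < y i} ∪ Q) := by
  refine ⟨Pi.single i 1, norm_single i, k, hk, fun y hy z hz h h0 h1 => ?_⟩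
  have h2 := abs_le.1 (Real.dist_eq _ _ ▸ (dist_le_pi_dist z y i).trans hz)
  have h3 := mul_le_mul_of_nonneg_right hk1 h0
  rw [H]
  rcases hy with (hy | hy) | hy
  · have : y i < -1 := hy
    rw [th, th, cl_of_le (by linarith), cl_of_le (by linarith)]
    linarith
  · have : 2 < y i := hy
    rw [th, th, cl_of_ge (by linarith), cl_of_ge (by linarith)]
    linarith
  · linarith [th_neg (η := z i) h0 (by linarith) (hQ y hy z hz)]

lemma psi_eta (S : ℝ) (z : Fin 5 → ℝ) (h : ℝ) : Psi M W S (z + h • Pi.single 3 1) =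
    Psi M W S z - th (z 3) (S - W (z 0 + sv z + tv z)) +
      th (z 3 + h) (S - W (z 0 + sv z + tv z)) := by
  simp [Psi, sv, tv]
  ring

lemma psi_zeta (S : ℝ) (z : Fin 5 → ℝ) (h : ℝ) : Psi M W S (z + h • Pi.single 4 1) =
    Psi M W S z - th (z 4) (W (z 0 - sv z - tv z)) + th (z 4 + h) (W (z 0 - sv z - tv z)) := by
  simp [Psi, sv, tv]

lemma Nf_zero (c x : ℝ) : Nf M c (max x 0) (max (-x) 0) = 0 := by
  rcases le_total x 0 with h | h
  · simp [Nf, h]
  · simp [Nf, h]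

lemma psi_piece (S : ℝ) {ε : ℝ} (hε : ε = 1 ∨ ε = -1) {y : Fin 5 → ℝ} (h : 0 ≤ ε * y 2) :
    Psi M W S y = T M W S ε (y 0) (sv y) (tv y) (y 3) (y 4) := by
  rcases hε with rfl | rfl
  · rw [one_mul] at h
    simp [Psi, T, sv, tv, h, abs_of_nonneg h, Nf_zero]
  · have h : y 2 ≤ 0 := by linarith
    simp [Psi, T, sv, tv, h, abs_of_nonpos h, Nf_zero]

lemma sv_piece {ε τ : ℝ} (hε : ε = 1 ∨ ε = -1) (hτ : τ = 1 ∨ τ = -1) {y : Fin 5 → ℝ}
    (h2 : 0 ≤ ε * y 2) (h1 : 0 ≤ τ * y 1) :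
    sv y = (1 + τ) / 2 * y 1 + ε * y 2 ∧ tv y = (τ - 1) / 2 * y 1 + ε * y 2 := by
  have e : |y 2| = ε * y 2 := by
    rcases hε with rfl | rfl
    · rw [abs_of_nonneg (by linarith), one_mul]
    · rw [abs_of_nonpos (by linarith), neg_one_mul]
  rw [sv, tv, e]
  rcases hτ with rfl | rfl
  · rw [max_eq_left (by linarith), max_eq_right (by linarith)]
    constructor <;> ring
  · rw [max_eq_right (by linarith), max_eq_left (by linarith)]
    constructor <;> ring

lemma hd (dM : ∀ x, HasDerivAt M (m x) x) (φ : ℝ → ℝ) (x v : ℝ) (hφ : ∀ h, φ h = x + h * v) :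
    HasDerivAt (fun h => M (φ h)) (m x * v) 0 := by
  have h1 : HasDerivAt φ v 0 := by
    rw [funext hφ]
    simpa using ((hasDerivAt_id (0 : ℝ)).mul_const v).const_add x
  exact (dM x).comp_of_eq 0 h1 (by simp [hφ])

lemma Dat.deriv_T (D : Dat m w M W a b) (S ε c s t η ζ u p q : ℝ) :
    HasDerivAt (fun h => T M W S ε (c + h * u) (s + h * p) (t + h * q) η ζ)
      (Dr m w ε (cl η) (cl ζ) c s t u p q) 0 := by
  have e0 : ∀ h, c + h * u + (s + h * p) + (t + h * q) = c + s + t + h * (u + p + q) :=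
    fun h => by ring
  have e3 : ∀ h, c + h * u - (s + h * p) - (t + h * q) = c - s - t + h * (u - p - q) :=
    fun h => by ring
  have e5 : ∀ h, c + h * u + (s + h * p) = c + s + h * (u + p) := fun h => by ring
  have e2 : ∀ h, c + h * u - (s + h * p) = c - s + h * (u - p) := fun h => by ring
  have e1 : ∀ h, c + h * u + (t + h * q) = c + t + h * (u + q) := fun h => by ring
  have e4 : ∀ h, c + h * u - (t + h * q) = c - t + h * (u - q) := fun h => by ring
  have N := (((((hd D.dM _ _ _ e0).fun_sub (hd D.dM _ _ _ e3)).fun_sub (hd D.dM _ _ _ e5)).fun_add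
    (hd D.dM _ _ _ e2)).fun_sub (hd D.dM _ _ _ e1)).fun_add (hd D.dM _ _ _ e4)
  have K := (((((hd D.dW _ _ _ e0).fun_sub (hd D.dW _ _ _ e3)).fun_add (hd D.dW _ _ _ e5)).fun_add
    (hd D.dW _ _ _ e2)).fun_sub (hd D.dW _ _ _ e1)).fun_sub (hd D.dW _ _ _ e4)
  have A := ((((hd D.dW _ _ _ e0).const_sub S).add_const 1).mul_const (cl η)).sub_const η
  have B := (((hd D.dW _ _ _ e3).add_const 1).mul_const (cl ζ)).sub_const ζ
  have := (((N.const_mul ε).fun_add (K.div_const 2)).fun_add A).fun_add B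
  refine HasDerivAt.congr_deriv this ?_
  unfold Dr
  ring

lemma exists_sign (x v : ℝ) :
    ∃ ε : ℝ, (ε = 1 ∨ ε = -1) ∧ 0 ≤ ε * x ∧ ∀ᶠ h in 𝓝[≥] (0 : ℝ), 0 ≤ ε * (x + h * v) := by
  have c : Continuous fun h : ℝ => x + h * v := by fun_prop
  rcases lt_trichotomy x 0 with h | rfl | h
  · refine ⟨-1, Or.inr rfl, by linarith, mem_nhdsWithin_of_mem_nhds ?_⟩
    filter_upwards [(c.tendsto 0).eventually_lt_const (u := 0) (by simpa using h)] with z hz
    linarith
  · rcases le_total 0 v with h | h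
    · refine ⟨1, Or.inl rfl, by simp, ?_⟩
      filter_upwards [self_mem_nhdsWithin] with z hz
      simpa using mul_nonneg hz h
    · refine ⟨-1, Or.inr rfl, by simp, ?_⟩
      filter_upwards [self_mem_nhdsWithin] with z hz
      simpa using mul_nonpos_of_nonneg_of_nonpos hz h
  · refine ⟨1, Or.inl rfl, by linarith, mem_nhdsWithin_of_mem_nhds ?_⟩
    filter_upwards [(c.tendsto 0).eventually_const_lt (u := 0) (by simpa using h)] with z hz
    linarith

/-- A direction of descent for all sheets through a point is a direction of descent. -/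
lemma Dat.locDesc (D : Dat m w M W a b) (S : ℝ) {y V : Fin 5 → ℝ} (hV : ‖V‖ ≤ 1) (h3 : V 3 = 0)
    (h4 : V 4 = 0) (H : ∀ ε τ : ℝ, ε = 1 ∨ ε = -1 → τ = 1 ∨ τ = -1 → 0 ≤ ε * y 2 → 0 ≤ τ * y 1 →
      Dr m w ε (cl (y 3)) (cl (y 4)) (y 0) (sv y) (tv y) (V 0) ((1 + τ) / 2 * V 1 + ε * V 2)
        ((τ - 1) / 2 * V 1 + ε * V 2) < 0) : LocDesc (Psi M W S) y := by
  have k : ∀ ε τ : ℝ, ε = 1 ∨ ε = -1 → τ = 1 ∨ τ = -1 → ∀ᶠ κ in 𝓝[>] (0 : ℝ), ∀ᶠ z in 𝓝 y,
      0 ≤ ε * z 2 → 0 ≤ τ * z 1 → Dr m w ε (cl (z 3)) (cl (z 4)) (z 0) (sv z) (tv z) (V 0)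
        ((1 + τ) / 2 * V 1 + ε * V 2) ((τ - 1) / 2 * V 1 + ε * V 2) ≤ -κ := by
    intro ε τ hε hτ
    have c2 : Continuous fun z : Fin 5 → ℝ => ε * z 2 := by fun_prop
    have c1 : Continuous fun z : Fin 5 → ℝ => τ * z 1 := by fun_prop
    rcases lt_or_ge (ε * y 2) 0 with a2 | a2
    · refine Eventually.of_forall fun κ => ?_
      filter_upwards [(c2.tendsto y).eventually_lt_const a2] with z hz h
      exact absurd h (not_le.2 hz)
    rcases lt_or_ge (τ * y 1) 0 with a1 | a1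
    · refine Eventually.of_forall fun κ => ?_
      filter_upwards [(c1.tendsto y).eventually_lt_const a1] with z hz _ h
      exact absurd h (not_le.2 hz)
    have c : Continuous fun z : Fin 5 → ℝ => Dr m w ε (cl (z 3)) (cl (z 4)) (z 0) (sv z) (tv z)
        (V 0) ((1 + τ) / 2 * V 1 + ε * V 2) ((τ - 1) / 2 * V 1 + ε * V 2) := by
      have := D.cm
      have := D.cw
      unfold Dr
      fun_prop
    filter_upwards [mem_nhdsWithin_of_mem_nhds (Iio_mem_nhds (neg_pos.2 (H ε τ hε hτ a2 a1)))]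
      with κ hκ
    filter_upwards [(c.tendsto y).eventually_lt_const (lt_neg.1 hκ)] with z hz _ _
    exact hz.le
  obtain ⟨κ, ⟨⟨⟨k1, k2⟩, k3⟩, k4⟩, hκ⟩ := (((((k 1 1 (.inl rfl) (.inl rfl)).and
    (k 1 (-1) (.inl rfl) (.inr rfl))).and (k (-1) 1 (.inr rfl) (.inl rfl))).and
    (k (-1) (-1) (.inr rfl) (.inr rfl))).and self_mem_nhdsWithin).exists
  refine locDesc_of_deriv (D.cPsi S) hV hκ ?_
  filter_upwards [k1, k2, k3, k4] with z k1 k2 k3 k4
  obtain ⟨ε, hε, a2, b2⟩ := exists_sign (z 2) (V 2)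
  obtain ⟨τ, hτ, a1, b1⟩ := exists_sign (z 1) (V 1)
  refine ⟨Dr m w ε (cl (z 3)) (cl (z 4)) (z 0) (sv z) (tv z) (V 0) ((1 + τ) / 2 * V 1 + ε * V 2)
    ((τ - 1) / 2 * V 1 + ε * V 2), ?_, ?_⟩
  · rcases hε with rfl | rfl <;> rcases hτ with rfl | rfl
    exacts [k1 a2 a1, k2 a2 a1, k3 a2 a1, k4 a2 a1]
  refine (D.deriv_T S ..).hasDerivWithinAt.congr_of_eventuallyEq ?_
    (by simpa using psi_piece S hε a2)
  filter_upwards [b2, b1] with h b2 b1
  obtain ⟨s1, t1⟩ := sv_piece hε hτ (y := z + h • V) b2 b1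
  obtain ⟨s0, t0⟩ := sv_piece hε hτ a2 a1
  rw [psi_piece S hε (y := z + h • V) b2, s1, t1, s0, t0]
  simp only [Pi.add_apply, Pi.smul_apply, smul_eq_mul, h3, h4, mul_zero, add_zero]
  congr 1 <;> ring

lemma Dat.zero (D : Dat m w M W a b) (S : ℝ) {y : Fin 5 → ℝ} (hn : ¬LocDesc (Psi M W S) y)
    (u p q : ℝ) (hV : |u| ≤ 1 ∧ |p| ≤ 1 ∧ |q| ≤ 1) (d : ℝ)
    (H : ∀ ε τ : ℝ, ε = 1 ∨ ε = -1 → τ = 1 ∨ τ = -1 → 0 ≤ ε * y 2 → 0 ≤ τ * y 1 →
      Dr m w ε (cl (y 3)) (cl (y 4)) (y 0) (sv y) (tv y) u ((1 + τ) / 2 * p + ε * q)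
        ((τ - 1) / 2 * p + ε * q) = d) : d = 0 := by
  have n : ‖(![u, p, q, 0, 0] : Fin 5 → ℝ)‖ ≤ 1 :=
    (pi_norm_le_iff_of_nonneg zero_le_one).2 fun i => by fin_cases i <;> simp [hV]
  rcases lt_trichotomy d 0 with h | h | h
  · exact (hn (D.locDesc S n rfl rfl fun ε τ hε hτ a2 a1 => (H ε τ hε hτ a2 a1).trans_lt h)).elim
  · exact h
  · refine (hn (D.locDesc S (V := -![u, p, q, 0, 0]) (by rwa [norm_neg]) (by simp) (by simp)
      fun ε τ hε hτ a2 a1 => ?_)).elim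
    have := H ε τ hε hτ a2 a1
    simp only [Pi.neg_apply, Matrix.cons_val]
    unfold Dr at this ⊢
    linarith

lemma hex_of_crit {ε α β c s t : ℝ} (hε : ε = 1 ∨ ε = -1) (hs : 0 ≤ s) (ht : 0 ≤ t)
    (hst : 0 < s + t) (ha : a ≤ c - s - t) (hb : c + s + t ≤ b)
    (hα : α = 0 ∨ α = 1 ∨ w (c + s + t) = 0) (hβ : β = 0 ∨ β = 1 ∨ w (c - s - t) = 0)
    (h0 : Dr m w ε α β c s t 1 0 0 = 0) (h1 : Dr m w ε α β c s t 0 1 0 = 0)
    (h2 : Dr m w ε α β c s t 0 0 1 = 0) : Hex m w a b := by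
  unfold Dr at h0 h1 h2
  have k : ∀ α x : ℝ, α = 0 ∨ α = 1 ∨ x = 0 →
      (1 / 2 - α) * x = x / 2 ∨ (1 / 2 - α) * x = -(x / 2) := by
    rintro α x (rfl | rfl | rfl)
    · left; ring
    · right; ring
    · left; ring
  rcases hε with rfl | rfl
  · refine ⟨c, s, t, m (c + s + t) + (1 / 2 - α) * w (c + s + t),
      m (c - s - t) + (1 / 2 - β) * w (c - s - t), hs, ht, hst, ha, hb, ?_, ?_, by linarith,
      by linarith, by linarith⟩
    · exact (k _ _ hα).imp (fun h => by linarith) fun h => by linarith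
    · exact (k _ _ hβ).imp (fun h => by linarith) fun h => by linarith
  · have e0 : c + t + s = c + s + t := by ring
    have e3 : c - t - s = c - s - t := by ring
    refine ⟨c, t, s, m (c + s + t) - (1 / 2 - α) * w (c + s + t),
      m (c - s - t) - (1 / 2 - β) * w (c - s - t), ht, hs, by linarith, by linarith, by linarith,
      ?_, ?_, by linarith, by linarith, by linarith⟩
    · rw [e0]
      exact (k _ _ hα).symm.imp (fun h => by linarith) fun h => by linarith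
    · rw [e3]
      exact (k _ _ hβ).symm.imp (fun h => by linarith) fun h => by linarith

end Pool.Agent.P.MP_e1e3b8_co.G
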